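import Pool.Agent.L0h29.AL.ArtDefs4

/-!
# Project AL, module CLX: relations over a subset of the generators
-/

set_option autoImplicit false

namespace Pool.Agent.L0h30.AL3

open Pool.Agent.L0h29.AL Pool.Agent.K7.H20.AW Pool.Agent.K7.H87.FJ6 Pool.Agent.Helper741

theorem lval_inc {A B : Type*} [Finite B] (M : CoxeterMatrix B) (ι : A → B)
    (hι : Function.Injective ι) (w : List (A × Bool)) :
    inc M (z0 B) ι hι (lval (pull M ι hι) w) = lval M (w.map fun p => (ι p.1, p.2)) := by
  induction w with
  | nil => exact map_one _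
  | cons p w ih =>
    have h1 : lval (pull M ι hι) (p :: w) =
        (if p.2 then g (pull M ι hι) p.1 else (g (pull M ι hι) p.1)⁻¹) *
          lval (pull M ι hι) w := by simp [lval]
    have h2 : lval M ((p :: w).map fun p => (ι p.1, p.2)) =
        (if p.2 then g M (ι p.1) else (g M (ι p.1))⁻¹) *
          lval M (w.map fun p => (ι p.1, p.2)) := by simp [lval]
    rw [h1, h2, map_mul, ih]
    congr 1
    have h3 : inc M (z0 B) ι hι (g (pull M ι hι) p.1) = g M (ι p.1) := inc_gen _ _ _ _ _
    split_ifs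
    · exact h3
    · rw [map_inv, h3]

theorem lval_pull {A B : Type*} [Finite B] (M : CoxeterMatrix B) (ι : A → B)
    (hι : Function.Injective ι) (w : List (A × Bool)) :
    lval (pull M ι hι) w = 1 ↔ lval M (w.map fun p => (ι p.1, p.2)) = 1 := by
  rw [← lval_inc M ι hι]
  constructor
  · intro h
    rw [h, map_one]
  · intro h
    exact inc_injective (adm0 M) ι hι (by rw [h, map_one])

theorem exists_map {B : Type*} (X : Finset B) (w : List (B × Bool)) (h : ∀ a ∈ w, a.1 ∈ X) :
    ∃ w' : List ({x // x ∈ X} × Bool), w'.map (fun p => ((p.1 : B), p.2)) = w := by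
  induction w with
  | nil => exact ⟨[], rfl⟩
  | cons p w ih =>
    obtain ⟨w', hw'⟩ := ih fun a ha => h a (by simp [ha])
    exact ⟨(⟨p.1, h p (by simp)⟩, p.2) :: w', by simp [hw']⟩

/-- **Module CLX.** -/
theorem t_CLX.{u} : S_CLX.{u} := by
  intro B _ _ M X w hw
  obtain ⟨w', rfl⟩ := exists_map X w hw
  have hι : Function.Injective (Subtype.val : {x // x ∈ X} → B) := Subtype.val_injective
  have e : pull (cl M X) (Subtype.val : {x // x ∈ X} → B) hι = pull M Subtype.val hι := by
    apply CoxeterMatrix.ext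
    ext i j
    show cl M X i.1 j.1 = M i.1 j.1
    show (if i.1 = j.1 then 1 else if i.1 ∈ X ∧ j.1 ∈ X then M i.1 j.1 else 2) = M i.1 j.1
    split_ifs with h1 h2
    · rw [h1]; exact (M.diagonal _).symm
    · rfl
    · exact absurd ⟨i.2, j.2⟩ h2
  rw [← lval_pull M Subtype.val hι, ← lval_pull (cl M X) Subtype.val hι, e]

end Pool.Agent.L0h30.AL3
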