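import Pool.Agent.L0h29.AL.ArtDefs4
import Pool.Agent.L0h68.AL.Red
import Pool.Agent.L0h97.AL.RTR
import Pool.Agent.K7.H20.AW.Flag

/-!
# Project AL, module GPA: decomposition of relations along infinite labels
-/

set_option autoImplicit false

namespace Pool.Agent.L0h30.AL3

open Pool.Agent.L0h29.AL Pool.Agent.K7.H20.AW

section words

variable {B : Type*} (M : CoxeterMatrix B)

theorem lv_nil : lval M [] = 1 := rfl

theorem lv_cons (p : B × Bool) (w : List (B × Bool)) :
    lval M (p :: w) = (if p.2 then g M p.1 else (g M p.1)⁻¹) * lval M w := by simp [lval]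

theorem lv_append (v w : List (B × Bool)) : lval M (v ++ w) = lval M v * lval M w := by
  simp [lval]

theorem lv_inv (w : List (B × Bool)) : lval M (FreeGroup.invRev w) = (lval M w)⁻¹ := by
  induction w with
  | nil => simp [FreeGroup.invRev, lval]
  | cons p w ih =>
    have h : FreeGroup.invRev (p :: w) = FreeGroup.invRev w ++ [(p.1, !p.2)] := by
      simp [FreeGroup.invRev]
    rw [h, lv_append, ih, lv_cons M p w, mul_inv_rev, lv_cons, lv_nil, mul_one]
    congr 1
    rcases p with ⟨b, e⟩
    cases e <;> simp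

theorem lv_mem {V : Set B} {w : List (B × Bool)} (h : ∀ a ∈ w, a.1 ∈ V) : lval M w ∈ P M V := by
  induction w with
  | nil => exact one_mem _
  | cons p w ih =>
    rw [lv_cons]
    refine mul_mem ?_ (ih fun a ha => h a (by simp [ha]))
    split_ifs
    · exact g_mem (h p (by simp))
    · exact inv_mem (g_mem (h p (by simp)))

theorem lv_Wl (w : List (B × Bool)) : Wl (Set.range (g M)) (lval M w) w.length := by
  refine ⟨w.map fun p => if p.2 then g M p.1 else (g M p.1)⁻¹, by simp, ?_, rfl⟩
  intro a ha
  obtain ⟨p, _, rfl⟩ := List.mem_map.1 ha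
  by_cases h : p.2
  · left
    simp only [h, if_true]
    exact ⟨_, rfl⟩
  · right
    simp only [h]
    exact ⟨p.1, by simp⟩

theorem word_of (V : Set B) (l : List (Art M)) (h : ∀ a ∈ l, a ∈ g M '' V ∨ a⁻¹ ∈ g M '' V) :
    ∃ c : List (B × Bool), c.length = l.length ∧ (∀ p ∈ c, p.1 ∈ V) ∧ lval M c = l.prod := by
  induction l with
  | nil => exact ⟨[], rfl, by simp, rfl⟩
  | cons a l ih =>
    obtain ⟨c, h1, h2, h3⟩ := ih fun a ha => h a (by simp [ha])
    rcases h a (by simp) with ⟨b, hb, rfl⟩ | ⟨b, hb, h4⟩
    · refine ⟨(b, true) :: c, by simp [h1], ?_, ?_⟩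
      · intro p hp
        rcases List.mem_cons.1 hp with rfl | hp
        · exact hb
        · exact h2 p hp
      · rw [lv_cons, h3, List.prod_cons]
        rfl
    · refine ⟨(b, false) :: c, by simp [h1], ?_, ?_⟩
      · intro p hp
        rcases List.mem_cons.1 hp with rfl | hp
        · exact hb
        · exact h2 p hp
      · rw [lv_cons, h3, List.prod_cons]
        have : a = (g M b)⁻¹ := by rw [h4, inv_inv]
        rw [this]
        rfl

end words

section cert

variable {B : Type*} (M : CoxeterMatrix B)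

/-- a certificate -/
def CE (N1 N2 : ℕ) (x : FreeGroup B) : Prop :=
  ∃ c : List (List (B × Bool) × List (B × Bool) × Finset B),
    c.length ≤ N1 ∧
    (∀ p ∈ c, p.1.length ≤ N2 ∧ p.2.1.length ≤ N2 ∧ (∀ i ∈ p.2.2, ∀ j ∈ p.2.2, M i j ≠ 0) ∧
      (∀ a ∈ p.2.1, a.1 ∈ p.2.2) ∧ lval M p.2.1 = 1) ∧
    x = (c.map fun p => FreeGroup.mk p.1 * FreeGroup.mk p.2.1 * (FreeGroup.mk p.1)⁻¹).prod

theorem CE_one (N1 N2 : ℕ) : CE M N1 N2 1 := ⟨[], by simp, by simp, by simp⟩

variable {M}

theorem CE_mono {N1 N2 N1' N2' : ℕ} {x : FreeGroup B} (h : CE M N1 N2 x) (h1 : N1 ≤ N1')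
    (h2 : N2 ≤ N2') : CE M N1' N2' x := by
  obtain ⟨c, hc, hp, hx⟩ := h
  exact ⟨c, hc.trans h1, fun p hp' => ⟨(hp p hp').1.trans h2, (hp p hp').2.1.trans h2,
    (hp p hp').2.2⟩, hx⟩

theorem CE_mul {N1 N1' N2 : ℕ} {x y : FreeGroup B} (h : CE M N1 N2 x) (h' : CE M N1' N2 y) :
    CE M (N1 + N1') N2 (x * y) := by
  obtain ⟨c, hc, hp, hx⟩ := h
  obtain ⟨c', hc', hp', hy⟩ := h'
  refine ⟨c ++ c', by simp; omega, ?_, by rw [List.map_append, List.prod_append, hx, hy]⟩
  intro p hp2
  rcases List.mem_append.1 hp2 with h3 | h3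
  · exact hp p h3
  · exact hp' p h3

theorem CE_conj {N1 N2 : ℕ} {x : FreeGroup B} (h : CE M N1 N2 x) (a : List (B × Bool)) :
    CE M N1 (a.length + N2) (FreeGroup.mk a * x * (FreeGroup.mk a)⁻¹) := by
  obtain ⟨c, hc, hp, hx⟩ := h
  refine ⟨c.map fun p => (a ++ p.1, p.2), by simpa using hc, ?_, ?_⟩
  · intro p hp2
    obtain ⟨q, hq, rfl⟩ := List.mem_map.1 hp2
    obtain ⟨h1, h2, h3⟩ := hp q hq
    refine ⟨?_, h2.trans (Nat.le_add_left _ _), h3⟩
    show (a ++ q.1).length ≤ _
    rw [List.length_append]
    omega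
  · rw [hx]
    clear hx hc hp
    induction c with
    | nil =>
      simp only [List.map_nil, List.prod_nil]
      group
    | cons p c ih =>
      simp only [List.map_cons, List.prod_cons]
      rw [← ih, ← FreeGroup.mul_mk]
      group

end cert

/-- the total word of a list of blocks -/
def tw {B : Type*} (L : List (Bool × List (B × Bool))) : List (B × Bool) := (L.map Prod.snd).flatten

theorem tw_append {B : Type*} (L L' : List (Bool × List (B × Bool))) : tw (L ++ L') = tw L ++ tw L' := by
  simp [tw]

theorem tw_cons {B : Type*} (b : Bool × List (B × Bool)) (L : List (Bool × List (B × Bool))) :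
    tw (b :: L) = b.2 ++ tw L := by
  simp [tw]

theorem not_chain {α : Type*} {R : α → α → Prop} : ∀ L : List α, ¬ L.IsChain R →
    ∃ L1 x y L2, L = L1 ++ x :: y :: L2 ∧ ¬ R x y
  | [], h => absurd List.IsChain.nil h
  | [x], h => absurd (List.IsChain.singleton x) h
  | x :: y :: L, h => by
    by_cases h1 : R x y
    · have h2 : ¬ (y :: L).IsChain R := fun h3 => h (List.isChain_cons_cons.2 ⟨h1, h3⟩)
      obtain ⟨L1, x', y', L2, e, h4⟩ := not_chain (y :: L) h2
      exact ⟨x :: L1, x', y', L2, by rw [e]; rfl, h4⟩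
    · exact ⟨[], x, y, L, rfl, h1⟩

/-- the letter which is absent -/
def ab {B : Type*} (s t : B) (τ : Bool) : B := if τ then t else s

section blocks

variable {B : Type*} [Fintype B] [DecidableEq B] {M : CoxeterMatrix B}

/-- replacement of a word in the small parabolic subgroup -/
theorem repl (s t : B) (Y : Finset B) (W : List (B × Bool)) (hW : ∀ a ∈ W, a.1 ∈ Y)
    (h : lval M W ∈ P M {s, t}ᶜ) : ∃ c : List (B × Bool), c.length ≤ W.length ∧
      (∀ a ∈ c, a.1 ∈ Y ∧ a.1 ≠ s ∧ a.1 ≠ t) ∧ lval M c = lval M W := by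
  obtain ⟨r, r1, r2, r3, r4, -, -⟩ := Pool.Agent.L0h97.AL.t_RTR B M ({s, t}ᶜ ∩ (Y : Set B))
  have h1 : lval M W ∈ P M ({s, t}ᶜ ∩ (Y : Set B)) := P_inter h (lv_mem M fun a ha => hW a ha)
  have h2 : r (lval M W) = lval M W := by
    have := r2 _ h1 1
    rwa [mul_one, r3, mul_one] at this
  obtain ⟨l, hl, hl2, hl3⟩ := r4 _ _ (lv_Wl M W)
  obtain ⟨c, c1, c2, c3⟩ := word_of M _ l hl2
  refine ⟨c, c1 ▸ hl, ?_, by rw [c3, hl3, h2]⟩
  intro a ha
  obtain ⟨h4, h5⟩ := c2 a ha
  have h6 : ¬ (a.1 = s ∨ a.1 = t) := h4
  exact ⟨h5, fun h => h6 (Or.inl h), fun h => h6 (Or.inr h)⟩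

theorem blocks (s t : B) (hst : s ≠ t) (h0 : M s t = 0) (Y : Finset B) (n A : ℕ)
    (IH : ∀ τ : Bool, ∀ w : List (B × Bool), (∀ a ∈ w, a.1 ∈ Y ∧ a.1 ≠ ab s t τ) →
      w.length ≤ 2 * n → lval M w = 1 → CE M A A (FreeGroup.mk w)) :
    ∀ m : ℕ, ∀ L : List (Bool × List (B × Bool)), L.length = m →
      (∀ b ∈ L, ∀ a ∈ b.2, a.1 ∈ Y ∧ a.1 ≠ ab s t b.1) → (tw L).length ≤ n →
      lval M (tw L) = 1 → CE M (m * A) (n + A) (FreeGroup.mk (tw L)) := by
  intro m
  induction m with
  | zero =>
    intro L hL _ _ _
    obtain rfl := List.eq_nil_of_length_eq_zero hL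
    exact CE_one M _ _
  | succ m ih =>
    intro L hL hY hn hv
    by_cases hch : L.IsChain (fun x y => x.1 ≠ y.1)
    · -- some block lies in the small parabolic subgroup
      have hex : ∃ x ∈ L, lval M x.2 ∈ P M {s, t}ᶜ := by
        by_contra hcon
        push Not at hcon
        refine Pool.Agent.L0h68.AL.red B M s t hst h0 (L.map fun b => (b.1, lval M b.2)) ?_ ?_ ?_ ?_
        · intro h
          rw [List.map_eq_nil_iff] at h
          rw [h] at hL
          simp at hL
        · intro x hx
          obtain ⟨b, hb, rfl⟩ := List.mem_map.1 hx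
          refine ⟨?_, hcon b hb⟩
          show lval M b.2 ∈ AA M s t b.1
          unfold AA
          by_cases hb1 : b.1
          · rw [if_pos hb1]
            apply lv_mem
            intro a ha
            have := (hY b hb a ha).2
            rw [ab, if_pos hb1] at this
            exact this
          · rw [if_neg hb1]
            apply lv_mem
            intro a ha
            have := (hY b hb a ha).2
            rw [ab, if_neg hb1] at this
            exact this
        · rw [List.isChain_map]
          exact hch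
        · have h1 : ((L.map fun b => (b.1, lval M b.2)).map Prod.snd).prod = lval M (tw L) := by
            clear hL hY hn hv hch hcon
            induction L with
            | nil => rfl
            | cons b L ih2 =>
              rw [tw_cons, lv_append, ← ih2]
              simp
          rw [h1, hv]
          exact one_mem _
      obtain ⟨x, hxL, hx⟩ := hex
      obtain ⟨L1, L2, rfl⟩ := List.append_of_mem hxL
      rw [tw_append, tw_cons] at hn hv ⊢
      rcases Nat.eq_zero_or_pos m with rfl | hm
      · -- one block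
        have h1 : L1.length = 0 ∧ L2.length = 0 := by
          simp only [List.length_append, List.length_cons] at hL
          omega
        obtain rfl := List.eq_nil_of_length_eq_zero h1.1
        obtain rfl := List.eq_nil_of_length_eq_zero h1.2
        have e : tw ([] : List (Bool × List (B × Bool))) ++ (x.2 ++ tw []) = x.2 := by
          simp [tw]
        rw [e] at hn hv ⊢
        refine CE_mono (IH x.1 x.2 (hY x hxL) (by omega) hv) (by simp) (by omega)
      · obtain ⟨c, c1, c2, c3⟩ := repl s t Y x.2 (fun a ha => (hY x hxL a ha).1) hx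
        have hlen : (tw L1).length + (x.2.length + (tw L2).length) ≤ n := by
          simpa [List.length_append] using hn
        -- the shorter list of blocks
        have key : ∃ L' : List (Bool × List (B × Bool)), L'.length = m ∧
            (∀ b ∈ L', ∀ a ∈ b.2, a.1 ∈ Y ∧ a.1 ≠ ab s t b.1) ∧ tw L' = tw L1 ++ (c ++ tw L2) := by
          have hc : ∀ τ : Bool, ∀ a ∈ c, a.1 ∈ Y ∧ a.1 ≠ ab s t τ := by
            intro τ a ha
            refine ⟨(c2 a ha).1, ?_⟩
            unfold ab
            split_ifs
            · exact (c2 a ha).2.2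
            · exact (c2 a ha).2.1
          rcases L2 with _ | ⟨y, L2⟩
          · rcases List.eq_nil_or_concat L1 with rfl | ⟨L1', y, rfl⟩
            · simp at hL
              omega
            · refine ⟨L1' ++ [(y.1, y.2 ++ c)], ?_, ?_, ?_⟩
              · simp at hL ⊢
                omega
              · intro b hb a ha
                rcases List.mem_append.1 hb with hb | hb
                · exact hY b (by simp [hb]) a ha
                · rw [List.mem_singleton.1 hb] at ha ⊢
                  rcases List.mem_append.1 ha with ha | ha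
                  · exact hY y (by simp) a ha
                  · exact hc _ a ha
              · simp [tw]
          · refine ⟨L1 ++ (y.1, c ++ y.2) :: L2, ?_, ?_, ?_⟩
            · simp at hL ⊢
              omega
            · intro b hb a ha
              rcases List.mem_append.1 hb with hb | hb
              · exact hY b (by simp [hb]) a ha
              · rcases List.mem_cons.1 hb with rfl | hb
                · rcases List.mem_append.1 ha with ha | ha
                  · exact hc _ a ha
                  · exact hY y (by simp) a ha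
                · exact hY b (by simp [hb]) a ha
            · simp [tw]
        obtain ⟨L', hL', hY', e'⟩ := key
        have h1 : CE M (m * A) (n + A) (FreeGroup.mk (tw L')) := by
          apply ih L' hL' hY'
          · rw [e', List.length_append, List.length_append]
            omega
          · rw [e', lv_append, lv_append, c3, ← lv_append, ← lv_append]
            exact hv
        have h2 : CE M A A (FreeGroup.mk (x.2 ++ FreeGroup.invRev c)) := by
          apply IH x.1
          · intro a ha
            rcases List.mem_append.1 ha with ha | ha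
            · exact hY x hxL a ha
            · have h3 : ∃ b ∈ c, b.1 = a.1 := by
                unfold FreeGroup.invRev at ha
                rw [List.mem_reverse] at ha
                obtain ⟨b, hb, rfl⟩ := List.mem_map.1 ha
                exact ⟨b, hb, rfl⟩
              obtain ⟨b, hb, hba⟩ := h3
              rw [← hba]
              refine ⟨(c2 b hb).1, ?_⟩
              unfold ab
              split_ifs
              · exact (c2 b hb).2.2
              · exact (c2 b hb).2.1
          · rw [List.length_append, FreeGroup.invRev_length]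
            omega
          · rw [lv_append, lv_inv, c3, mul_inv_cancel]
        have h3 := CE_mono (CE_conj h2 (tw L1)) (le_refl A)
          (show (tw L1).length + A ≤ n + A by omega)
        have h4 := CE_mul h3 h1
        have e : FreeGroup.mk (tw L1) * FreeGroup.mk (x.2 ++ FreeGroup.invRev c) *
            (FreeGroup.mk (tw L1))⁻¹ * FreeGroup.mk (tw L') =
            FreeGroup.mk (tw L1 ++ (x.2 ++ tw L2)) := by
          rw [e', ← FreeGroup.mul_mk, ← FreeGroup.mul_mk, ← FreeGroup.mul_mk, ← FreeGroup.mul_mk,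
            ← FreeGroup.mul_mk, ← FreeGroup.inv_mk]
          group
        rw [e] at h4
        exact CE_mono h4 (by rw [Nat.succ_mul]; omega) le_rfl
    · -- two neighbours of the same type
      obtain ⟨L1, x, y, L2, rfl, h1⟩ := not_chain L hch
      have h2 : x.1 = y.1 := not_not.1 h1
      have e : tw (L1 ++ x :: y :: L2) = tw (L1 ++ (x.1, x.2 ++ y.2) :: L2) := by simp [tw]
      rw [e] at hn hv ⊢
      refine CE_mono (ih _ ?_ ?_ hn hv) (Nat.mul_le_mul_right _ (Nat.le_succ m)) le_rfl
      · simp at hL ⊢
        omega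
      · intro b hb a ha
        rcases List.mem_append.1 hb with hb | hb
        · exact hY b (by simp [hb]) a ha
        · rcases List.mem_cons.1 hb with rfl | hb
          · rcases List.mem_append.1 ha with ha | ha
            · exact hY x (by simp) a ha
            · show a.1 ∈ Y ∧ a.1 ≠ ab s t x.1
              rw [h2]
              exact hY y (by simp) a ha
          · exact hY b (by simp [hb]) a ha

omit [Fintype B] [DecidableEq B] in
theorem tw_single (f : B × Bool → Bool) (w : List (B × Bool)) :
    tw (w.map fun a => (f a, [a])) = w := by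
  induction w with
  | nil => rfl
  | cons a w ih => rw [List.map_cons, tw_cons, ih]; rfl

theorem ga_bound1 (k n : ℕ) : n * ga k (2 * n) ≤ ga (k + 1) n := by
  unfold ga
  have h1 : 2 ^ (k + 1) * (2 * n + 2) ≤ 2 ^ (k + 1 + 1) * (n + 2) := by
    rw [pow_succ 2 (k + 1)]
    nlinarith [Nat.one_le_two_pow (n := k + 1)]
  have h2 : n ≤ 2 ^ (k + 1 + 1) * (n + 2) := by
    nlinarith [Nat.one_le_two_pow (n := k + 1 + 1)]
  calc n * (2 ^ (k + 1) * (2 * n + 2)) ^ (k + 2)
      ≤ (2 ^ (k + 1 + 1) * (n + 2)) * (2 ^ (k + 1 + 1) * (n + 2)) ^ (k + 2) :=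
        Nat.mul_le_mul h2 (Nat.pow_le_pow_left h1 _)
    _ = (2 ^ (k + 1 + 1) * (n + 2)) ^ (k + 1 + 2) := by ring

theorem ga_bound2 (k n : ℕ) : n + ga k (2 * n) ≤ ga (k + 1) n := by
  unfold ga
  have h1 : 2 ^ (k + 1) * (2 * n + 2) ≤ 2 ^ (k + 1 + 1) * (n + 2) := by
    rw [pow_succ 2 (k + 1)]
    nlinarith [Nat.one_le_two_pow (n := k + 1)]
  have h2 : n + 2 ≤ 2 ^ (k + 1 + 1) * (n + 2) := by
    nlinarith [Nat.one_le_two_pow (n := k + 1 + 1)]
  set X := 2 ^ (k + 1 + 1) * (n + 2) with hX
  have h3 : 1 ≤ X ^ (k + 2) := Nat.one_le_pow _ _ (by omega)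
  have h4 : (2 ^ (k + 1) * (2 * n + 2)) ^ (k + 2) ≤ X ^ (k + 2) := Nat.pow_le_pow_left h1 _
  have h5 : X ^ (k + 1 + 2) = X * X ^ (k + 2) := by ring
  rw [h5]
  nlinarith [Nat.mul_le_mul h2 (le_refl (X ^ (k + 2)))]

theorem main (M : CoxeterMatrix B) : ∀ k : ℕ, ∀ Y : Finset B, Y.card = k → ∀ (n : ℕ)
    (w : List (B × Bool)), (∀ a ∈ w, a.1 ∈ Y) → w.length ≤ n → lval M w = 1 →
    CE M (ga k n) (ga k n) (FreeGroup.mk w) := by
  have direct : ∀ (k : ℕ) (Y : Finset B), (∀ i ∈ Y, ∀ j ∈ Y, M i j ≠ 0) → ∀ (n : ℕ)
      (w : List (B × Bool)), (∀ a ∈ w, a.1 ∈ Y) → w.length ≤ n → lval M w = 1 →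
      CE M (ga k n) (ga k n) (FreeGroup.mk w) := by
    intro k Y hY n w hw hn hv
    have h1 : n + 2 ≤ 2 ^ (k + 1) * (n + 2) := Nat.le_mul_of_pos_left _ (by positivity)
    have h2 : n + 2 ≤ ga k n := h1.trans (Nat.le_self_pow (by omega) _)
    refine ⟨[([], w, Y)], ?_, ?_, ?_⟩
    · simp only [List.length_singleton]
      omega
    · intro p hp
      rw [List.mem_singleton] at hp
      subst hp
      refine ⟨by simp, ?_, hY, hw, hv⟩
      show w.length ≤ _
      omega
    · simp only [List.map_cons, List.map_nil, List.prod_cons, List.prod_nil, mul_one]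
      rw [← FreeGroup.one_eq_mk]
      group
  intro k
  induction k with
  | zero =>
    intro Y hY n w hw hn hv
    refine direct 0 Y ?_ n w hw hn hv
    intro i hi
    rw [Finset.card_eq_zero.1 hY] at hi
    simp at hi
  | succ k ih =>
    intro Y hY n w hw hn hv
    by_cases hcl : ∀ i ∈ Y, ∀ j ∈ Y, M i j ≠ 0
    · exact direct _ Y hcl n w hw hn hv
    · push Not at hcl
      obtain ⟨s, hs, t, ht, h0⟩ := hcl
      have hst : s ≠ t := by
        rintro rfl
        have := M.diagonal s
        omega
      have IH : ∀ τ : Bool, ∀ w : List (B × Bool), (∀ a ∈ w, a.1 ∈ Y ∧ a.1 ≠ ab s t τ) →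
          w.length ≤ 2 * n → lval M w = 1 →
          CE M (ga k (2 * n)) (ga k (2 * n)) (FreeGroup.mk w) := by
        intro τ w hw hn hv
        have h1 : ab s t τ ∈ Y := by
          unfold ab
          split_ifs
          · exact ht
          · exact hs
        refine ih (Y.erase (ab s t τ)) ?_ (2 * n) w ?_ hn hv
        · rw [Finset.card_erase_of_mem h1, hY]
          rfl
        · intro a ha
          exact Finset.mem_erase.2 ⟨(hw a ha).2, (hw a ha).1⟩
      have h1 := blocks s t hst h0 Y n (ga k (2 * n)) IH w.length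
        (w.map fun a => (decide (a.1 ≠ t), [a])) (by simp) ?_ (by rw [tw_single]; exact hn)
        (by rw [tw_single]; exact hv)
      · rw [tw_single] at h1
        exact CE_mono h1 ((Nat.mul_le_mul_right _ hn).trans (ga_bound1 k n)) (ga_bound2 k n)
      · intro b hb a ha
        obtain ⟨a', ha', rfl⟩ := List.mem_map.1 hb
        rw [List.mem_singleton] at ha
        subst ha
        refine ⟨hw a ha', ?_⟩
        show a.1 ≠ ab s t (decide (a.1 ≠ t))
        unfold ab
        by_cases h2 : a.1 = t
        · simp [h2, hst.symm]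
        · simp [h2]

end blocks

/-- **Module GPA.** -/
theorem t_GPA.{u} : S_GPA.{u} := by
  intro B _ _ M w hw
  exact main M _ Finset.univ (Finset.card_univ) w.length w (fun a _ => Finset.mem_univ _) le_rfl hw

end Pool.Agent.L0h30.AL3
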